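import Pool.Agent.Q33.QPhi.Legendre

/-! Truncated basic hypergeometric sums modulo `Φ_n(q)^2` for `n ≡ 3 (mod 4)`. -/

namespace Pool.Agent.Results.MP_5ca353_nt.SquareCyclotomic

open Finset Polynomial Pool.Agent.Q33.QPhi

/-- the `q`-shifted factorial `(a;x)_k = ∏_{j<k} (1 - a x^j)` in `ℚ(q)` -/
noncomputable def qf (a x : RatFunc ℚ) (k : ℕ) : RatFunc ℚ := ∏ j ∈ range k, (1 - a * x ^ j)

/-- `A_k(q) = (q;q^2)_k/(q^2;q^2)_k` -/
noncomputable def A (k : ℕ) : RatFunc ℚ :=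
  qf RatFunc.X (RatFunc.X ^ 2) k / qf (RatFunc.X ^ 2) (RatFunc.X ^ 2) k

/-- `B_k(q) = (q^2;q^4)_k/(q^4;q^4)_k` -/
noncomputable def B (k : ℕ) : RatFunc ℚ :=
  qf (RatFunc.X ^ 2) (RatFunc.X ^ 4) k / qf (RatFunc.X ^ 4) (RatFunc.X ^ 4) k

/-- `c_k(q) = A_k(q)^2 B_k(q) q^(2k)` -/
noncomputable def c (k : ℕ) : RatFunc ℚ := A k ^ 2 * B k * RatFunc.X ^ (2 * k)

/-- `S_N(q) = ∑_{k=0}^{N} c_k(q)` -/
noncomputable def S (N : ℕ) : RatFunc ℚ := ∑ k ∈ range (N + 1), c k

/-- the inclusion `ℤ[q] → ℚ(q)` -/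
noncomputable def incl : ℤ[X] →+* RatFunc ℚ :=
  (algebraMap ℚ[X] (RatFunc ℚ)).comp (Polynomial.mapRingHom (Int.castRingHom ℚ))

/-- `f ≡ 0 (mod Φ_n(q)^2)`: the denominator of `f` in lowest terms is coprime to `Φ_n`, and
`Φ_n(q)^2` divides `A` in `ℤ[q]` whenever `f = A/B` with `A, B ∈ ℤ[q]`, `B ≠ 0` -/
def ZeroMod (n : ℕ) (f : RatFunc ℚ) : Prop :=
  IsCoprime f.denom (cyclotomic n ℚ) ∧
    ∀ A B : ℤ[X], B ≠ 0 → f = incl A / incl B → cyclotomic n ℤ ^ 2 ∣ A

section
variable {R : Type*} [CommRing R]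

theorem natDegree_prod_range (f : ℕ → R[X]) (N d : ℕ) (h : ∀ l, (f l).natDegree ≤ d) :
    (∏ l ∈ range N, f l).natDegree ≤ N * d := by
  refine (natDegree_prod_le _ _).trans ?_
  calc ∑ l ∈ range N, (f l).natDegree ≤ ∑ l ∈ range N, d := sum_le_sum fun l _ => h l
    _ = N * d := by simp

/-- the polynomial of the block theorem -/
theorem exists_T (D : Data R) :
    ∃ T : R[X], (∀ j, D.n ∣ j → T.coeff j ≠ 0 → j = 2 * D.n) ∧
      ∀ z, T.eval z = (X ^ 2 : R[X]).eval z * D.p 1 z ^ 2 * D.p 2 z ^ 1 := by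
  set g : R[X] := (∏ l ∈ range D.N, (1 - C (D.q ^ (2 * 1 * (l + 1))) * X)) ^ 2 *
    (∏ l ∈ range D.N, (1 - C (D.q ^ (2 * 2 * (l + 1))) * X ^ 2)) with hg
  refine ⟨X ^ 2 * expand R 2 g, ?_, ?_⟩
  · have hdeg : g.natDegree ≤ 4 * D.N := by
      have h1 : (∏ l ∈ range D.N, (1 - C (D.q ^ (2 * 1 * (l + 1))) * X)).natDegree ≤ D.N * 1 := by
        apply natDegree_prod_range
        intro l
        refine (natDegree_sub_le _ _).trans ?_
        rw [natDegree_one]
        exact max_le (Nat.zero_le _) ((natDegree_C_mul_le _ _).trans natDegree_X_le)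
      have h2 : (∏ l ∈ range D.N, (1 - C (D.q ^ (2 * 2 * (l + 1))) * X ^ 2)).natDegree ≤ D.N * 2 := by
        apply natDegree_prod_range
        intro l
        refine (natDegree_sub_le _ _).trans ?_
        rw [natDegree_one]
        exact max_le (Nat.zero_le _) ((natDegree_C_mul_le _ _).trans (natDegree_X_pow_le 2))
      rw [hg]
      refine natDegree_mul_le.trans ?_
      have h3 := natDegree_pow_le (p := ∏ l ∈ range D.N, (1 - C (D.q ^ (2 * 1 * (l + 1))) * X)) (n := 2)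
      omega
    intro j hj hc
    rw [coeff_X_pow_mul'] at hc
    split_ifs at hc with h2
    · rw [coeff_expand (by norm_num : 0 < 2)] at hc
      split_ifs at hc with h3
      · have h4 := le_natDegree_of_ne_zero hc
        obtain ⟨i, hi⟩ := h3
        have h5 : (j - 2) / 2 = i := by omega
        rw [h5] at h4
        have hn := D.hn
        obtain ⟨m, hm⟩ := hj
        have hj2 : j = 2 * (i + 1) := by omega
        have h6 : m < 4 := by
          by_contra h7
          have h8 : D.n * 4 ≤ D.n * m := Nat.mul_le_mul_left _ (by omega)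
          omega
        have h7 : 0 < m := by
          rcases Nat.eq_zero_or_pos m with h0 | h0
          · rw [h0, mul_zero] at hm
            omega
          · exact h0
        interval_cases m
        · omega
        · omega
        · omega
      · exact absurd rfl hc
    · exact absurd rfl hc
  · intro z
    have h1 : ∏ l ∈ range D.N, eval (z ^ 2) (1 - C (D.q ^ (2 * 1 * (l + 1))) * X) = D.p 1 z := by
      unfold Data.p
      refine prod_congr rfl fun l _ => ?_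
      rw [eval_sub, eval_one, eval_mul, eval_C, eval_X]
    have h2 : ∏ l ∈ range D.N, eval (z ^ 2) (1 - C (D.q ^ (2 * 2 * (l + 1))) * X ^ 2) = D.p 2 z := by
      unfold Data.p
      refine prod_congr rfl fun l _ => ?_
      rw [eval_sub, eval_one, eval_mul, eval_C, eval_pow, eval_X, ← pow_mul]
    rw [← h1, ← h2, ← eval_prod, ← eval_prod, eval_mul, expand_eval, hg, eval_mul, eval_pow (n := 2),
      eval_pow, eval_X, pow_one]
    ring

theorem abstract_main (D : Data R) (hN : Odd D.N) {A₁ A₂ : ℕ → R} (hA1 : D.IsA 1 A₁) (hA2 : D.IsA 2 A₂)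
    (h10 : A₁ 0 = 1) (h20 : A₂ 0 = 1) (r : ℕ) :
    ∑ k ∈ range (r * D.n), (D.q ^ k) ^ 2 * A₁ k ^ 2 * A₂ k = 0 ∧
    ∑ k ∈ range (r * D.n + D.N + 1), (D.q ^ k) ^ 2 * A₁ k ^ 2 * A₂ k = 0 := by
  obtain ⟨T, hT1, hT2⟩ := exists_T D
  have hleg := D.legendre hN hA1 hA2 h10 h20
  have hW : ∀ k, (X ^ 2 : R[X]).eval (D.q ^ k) * A₁ k ^ 2 * A₂ k ^ 1 = (D.q ^ k) ^ 2 * A₁ k ^ 2 * A₂ k := by
    intro k
    rw [eval_pow, eval_X, pow_one]
  have hblock := D.block (α := 2) (β := 1) (X ^ 2) T (2 * D.n) hT1 hT2 hA1 hA2 h10 h20 (by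
    rw [← hleg]
    exact sum_congr rfl fun k _ => hW k)
  have hhalf := D.block_half (α := 2) (β := 1) (by norm_num) (X ^ 2) hA1 hA2 hblock
  constructor
  · rw [← hblock r]
    exact sum_congr rfl fun k _ => (hW k).symm
  · rw [← hhalf r]
    exact sum_congr rfl fun k _ => (hW k).symm

end

/-- **MP_5ca353**, Q1: for every positive integer `n ≡ 3 (mod 4)` and `r ≥ 1`, both truncations
`S_{rn-1}(q)` and `S_{rn+(n-1)/2}(q)` are `≡ 0` modulo `Φ_n(q)^2`. -/
theorem result (n r : ℕ) (hn : n % 4 = 3) (hr : 1 ≤ r) :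
    ZeroMod n (S (r * n - 1)) ∧ ZeroMod n (S (r * n + (n - 1) / 2)) := by
  have : NeZero n := ⟨by omega⟩
  obtain ⟨N, hN⟩ : ∃ N, n = 2 * N + 1 := ⟨n / 2, by omega⟩
  have hNodd : Odd N := Nat.odd_iff.2 (by omega)
  have hodd : Odd n := Nat.odd_iff.2 (by omega)
  have hA1 := isA_AO n hodd (s := 1) one_pos N hN
  have hA2 := isA_AO n hodd (s := 2) two_pos N hN
  have h10 : mkB n (AO n 1 0) = 1 := by rw [AO_zero, map_one]
  have h20 : mkB n (AO n 2 0) = 1 := by rw [AO_zero, map_one]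
  obtain ⟨m1, m2⟩ := abstract_main (data n N hN) hNodd hA1 hA2 h10 h20 r
  -- the elements of the local ring
  have hpsi : ∀ k, psi n ((qO n ^ k) ^ 2 * AO n 1 k ^ 2 * AO n 2 k) = c k := by
    intro k
    rw [map_mul, map_mul, map_pow, map_pow, map_pow, psi_qO, psi_AO n hodd one_pos, psi_AO n hodd two_pos]
    simp only [c, A, B, qf, poch, pow_one, mul_one, Nat.reduceMul]
    ring
  have hfin : ∀ K, (∑ k ∈ range K, (mkB n (qO n) ^ k) ^ 2 * (mkB n (AO n 1 k)) ^ 2 *
      (mkB n (AO n 2 k)) = 0) → ZeroMod n (∑ k ∈ range K, c k) := by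
    intro K hK
    have h1 : mkB n (∑ k ∈ range K, (qO n ^ k) ^ 2 * AO n 1 k ^ 2 * AO n 2 k) = 0 := by
      rw [← hK, map_sum]
      refine sum_congr rfl fun k _ => ?_
      rw [map_mul, map_mul, map_pow, map_pow, map_pow]
    rw [mkB_eq_zero] at h1
    have h2 := conclude n _ h1
    rw [map_sum, sum_congr rfl (fun k _ => hpsi k)] at h2
    exact h2
  constructor
  · have h1 := hfin (r * n) m1
    have h2 : S (r * n - 1) = ∑ k ∈ range (r * n), c k := by
      unfold S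
      have : 1 ≤ r * n := Nat.mul_pos hr (NeZero.pos n)
      rw [show r * n - 1 + 1 = r * n by omega]
    rw [h2]
    exact h1
  · have h1 := hfin (r * n + N + 1) m2
    have h2 : S (r * n + (n - 1) / 2) = ∑ k ∈ range (r * n + N + 1), c k := by
      unfold S
      rw [show (n - 1) / 2 = N by omega]
    rw [h2]
    exact h1

end Pool.Agent.Results.MP_5ca353_nt.SquareCyclotomic
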